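import Pool.Agent.Helper57.SJ.Stmts

/-!
# The combination, for one direction, long intervals (row CMT)
-/

set_option autoImplicit false

namespace Pool.Agent.Helper4.SJ

open MeasureTheory Set Filter Topology
open Pool.Agent.Helper57.QZ (Pr tor circ aa Zy Wy Sy Vy Ky pt lin Good zA Pz)
open Pool.Agent.Helper57.SI (wsup P1 P2 fej fc gc Kk zz ZZ ww D1 D2 tl)
open Pool.Agent.Helper57.SJ

theorem cmt_re (θ : ℝ) (W : ℂ) : |(Complex.exp (-((θ : ℂ) * Complex.I)) * W).re| ≤ ‖W‖ := by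
  refine (Complex.abs_re_le_norm _).trans ?_
  rw [norm_mul, Complex.norm_exp]
  simp

theorem cmt_exp1 {η : ℝ} (hη0 : 0 < η) (hη1 : η < 1 / 100) : Real.exp η ≤ 1 + 2 * η := by
  have b3 := Real.abs_exp_sub_one_sub_id_le (x := η) (by rw [abs_of_nonneg hη0.le]; linarith)
  have b4 := (abs_le.1 b3).2
  nlinarith [b4, hη0, hη1]

theorem cmt_exp3 {η : ℝ} (hη0 : 0 < η) (hη1 : η < 1 / 100) : Real.exp (3 * η) ≤ 1 + 4 * η := by
  have b3 := Real.abs_exp_sub_one_sub_id_le (x := 3 * η)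
    (by rw [abs_of_nonneg (by positivity)]; linarith)
  have b4 := (abs_le.1 b3).2
  nlinarith [b4, hη0, hη1]

theorem cmt_b6 {η δ : ℝ} (hδη : δ = 100 * η) (hη0 : 0 < η) (hη1 : η < 1 / 100) :
    (1 + 2 * η) * (1 + 4 * η) ≤ 1 + δ := by rw [hδη]; nlinarith [hη0, hη1]

theorem cmt_l7 {η δ : ℝ} (hδη : δ = 100 * η) (hη0 : 0 < η) :
    1 - δ ≤ (1 - η) * (1 - 19 * η) := by rw [hδη]; nlinarith [hη0]

theorem st_CMT (h1 : Pool.Agent.Helper57.SI.ST_MT) (h2 : Pool.Agent.Helper57.SI.ST_DU)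
    (h3 : Pool.Agent.Helper57.SI.ST_DL) (h4 : Pool.Agent.Helper57.SI.ST_DW) (h5 : ST_AP)
    (h6 : ST_UPT) (h7 : ST_LOWT) (h8 : Pool.Agent.Helper57.QZ.ST_DT1) : ST_CMT := by
  intro δ hδ
  obtain ⟨CU, hU⟩ := h2
  obtain ⟨CL, hCL, hL⟩ := h3
  obtain ⟨CW, hCW, hW⟩ := h4
  have hδ0 := hδ.1
  have hδ1 := hδ.2
  obtain ⟨η, hδη⟩ : ∃ η : ℝ, δ = 100 * η := ⟨δ / 100, by ring⟩
  have hη0 : 0 < η := by linarith
  have hη1 : η < 1 / 100 := by linarith
  have hηI : η ∈ Ioo (0:ℝ) 1 := ⟨hη0, by linarith⟩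
  have hηI2 : η ∈ Ioo (0:ℝ) (1 / 2) := ⟨hη0, by linarith⟩
  obtain ⟨B, hB3, c1, hc1, hAP⟩ := h5 η hηI2
  obtain ⟨c2, hc2, hUP⟩ := h6 η hηI B hB3
  refine ⟨min c1 (min c2 (1 / 2)), ⟨lt_min hc1.1 (lt_min hc2.1 (by norm_num)),
    (min_le_left _ _).trans_lt hc1.2⟩, fun κ hκ => ?_⟩
  obtain ⟨C, hC⟩ : ∃ C : ℝ, C = 1 + |CU| + CW + (CL / η) ^ 2 := ⟨_, rfl⟩
  have hCC : 0 ≤ (CL / η) ^ 2 := sq_nonneg _
  have hCU : CU ≤ |CU| := le_abs_self _
  have hCU0 : 0 ≤ |CU| := abs_nonneg _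
  obtain ⟨Ha, hHa⟩ := h1 η hηI C
  obtain ⟨Ta, hTa4, hTa⟩ := hAP (κ / 4) (by positivity)
  obtain ⟨Hb, Tb, hHb3, hTb4, hTb⟩ := hUP (κ / 4) (by positivity)
  obtain ⟨Hc, Tc, hHc3, hTc4, hTc⟩ := h7 η hηI (κ / 4) (by positivity) B hB3
  refine ⟨max Ha (max Hb Hc), max Ta (max Tb Tc),
    hHb3.trans ((le_max_left _ _).trans (le_max_right _ _)), hTa4.trans (le_max_left _ _),
    fun T hT H hH hHT => ?_⟩
  have hH1 : Ha ≤ H := (le_max_left _ _).trans hH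
  have hH2 : Hb ≤ H := ((le_max_left _ _).trans (le_max_right _ _)).trans hH
  have hH3 : Hc ≤ H := ((le_max_right _ _).trans (le_max_right _ _)).trans hH
  have hT1 : Ta ≤ T := (le_max_left _ _).trans hT
  have hT2 : Tb ≤ T := ((le_max_left _ _).trans (le_max_right _ _)).trans hT
  have hT3 : Tc ≤ T := ((le_max_right _ _).trans (le_max_right _ _)).trans hT
  have hT1' : 1 ≤ T := by linarith
  have hHc1 : H ≤ T ^ c1 :=
    hHT.trans (Real.rpow_le_rpow_of_exponent_le hT1' (min_le_left _ _))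
  have hHc2 : H ≤ T ^ c2 :=
    hHT.trans (Real.rpow_le_rpow_of_exponent_le hT1' ((min_le_right _ _).trans (min_le_left _ _)))
  have hHc' : H ≤ T ^ (1 / 2 : ℝ) :=
    hHT.trans (Real.rpow_le_rpow_of_exponent_le hT1'
      ((min_le_right _ _).trans (min_le_right _ _)))
  obtain ⟨m1, m2, m3, m4, m5, m6, m7, m8, m9⟩ := hHa H hH1
  obtain ⟨L, hLdef⟩ : ∃ L : ℝ, Real.log (Real.log H) = L := ⟨_, rfl⟩
  rw [hLdef] at m2 m6 m7 m8
  rw [hLdef]
  have hLpos : 1 ≤ L := by linarith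
  have hz1 : 1 ≤ zz H := by
    have : (1:ℝ) ≤ (zz H : ℝ) := by linarith
    exact_mod_cast this
  refine ⟨hLpos, ?_⟩
  obtain ⟨hy2, hlow⟩ := hTc T hT3 H hH3 hHc'
  obtain ⟨y, hydef⟩ : ∃ y : ℕ, zA B T = y := ⟨_, rfl⟩
  rw [hydef] at hy2 hlow
  refine ⟨Real.exp (P1 (zz H) + Ky y 1), Real.exp_pos _, fun θ => ?_⟩
  obtain ⟨A, hA⟩ : ∃ A : ℝ, Real.exp (P1 (zz H) + Ky y 1) = A := ⟨_, rfl⟩
  have hApos : 0 < A := by rw [← hA]; exact Real.exp_pos _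
  rw [hA]
  have hTpos : 0 < T := by linarith
  obtain ⟨E1, e1, e1', e1''⟩ := hTa T hT1 H (by linarith) hHc1
  obtain ⟨E2, e2, e2', e2''⟩ := hTb T hT2 H hH2 hHc2
  obtain ⟨E3, e3, e3', e3''⟩ := hlow 0
  obtain ⟨E4, e4, e4', e4''⟩ := hlow (θ + Real.pi)
  rw [hydef] at e1'' e2''
  refine ⟨(E1 ∪ E2) ∪ (E3 ∪ E4), union_subset (union_subset e1 e2) (union_subset e3 e4), ?_,
    fun u hu huE => ?_⟩
  · have a1 := measureReal_union_le (μ := (volume : Measure ℝ)) (E1 ∪ E2) (E3 ∪ E4)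
    have a2 := measureReal_union_le (μ := (volume : Measure ℝ)) E1 E2
    have a3 := measureReal_union_le (μ := (volume : Measure ℝ)) E3 E4
    linarith
  simp only [mem_union, not_or] at huE
  obtain ⟨⟨n1, n2⟩, n3, n4⟩ := huE
  have q1 := e1'' u hu n1
  have q2 := e2'' u hu n2
  obtain ⟨t3, ht3, f1, f2, f3, f4⟩ := e3'' u hu n3
  obtain ⟨t4, ht4, g1, g2, g3, g4⟩ := e4'' u hu n4
  have key : ∀ t ∈ Icc u (u + H), riemannZeta (pt 1 t) ≠ 0 ∧
      (1 - η) * ‖Zy y 1 (lin y t)‖ ≤ ‖riemannZeta (pt 1 t)‖ ∧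
      ‖riemannZeta (pt 1 t)‖ ≤ (1 + 2 * η) * ‖Zy y 1 (lin y t)‖ ∧
      ‖deriv riemannZeta (pt 1 t) / riemannZeta (pt 1 t) - Wy y 1 (lin y t)‖ ≤ η := by
    intro t ht
    obtain ⟨k1, k2, k3⟩ := q1 t ht
    have hZ : 0 < ‖Zy y 1 (lin y t)‖ :=
      norm_pos_iff.2 (h8 y 1 (lin y t) (by norm_num)).1
    have hz : 0 < ‖riemannZeta (pt 1 t)‖ := norm_pos_iff.2 k1
    obtain ⟨k4, k5⟩ := abs_le.1 k2
    refine ⟨k1, ?_, ?_, k3⟩
    · have b1 : Real.exp (Real.log ‖Zy y 1 (lin y t)‖ + -η) ≤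
          Real.exp (Real.log ‖riemannZeta (pt 1 t)‖) := Real.exp_le_exp.2 (by linarith)
      rw [Real.exp_add, Real.exp_log hZ, Real.exp_log hz] at b1
      have b2 := Real.add_one_le_exp (-η)
      have b3 : ‖Zy y 1 (lin y t)‖ * (1 - η) ≤ ‖Zy y 1 (lin y t)‖ * Real.exp (-η) :=
        mul_le_mul_of_nonneg_left (by linarith) hZ.le
      linarith
    · have b1 : Real.exp (Real.log ‖riemannZeta (pt 1 t)‖) ≤
          Real.exp (Real.log ‖Zy y 1 (lin y t)‖ + η) := Real.exp_le_exp.2 (by linarith)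
      rw [Real.exp_add, Real.exp_log hZ, Real.exp_log hz] at b1
      have b5 : Real.exp η ≤ 1 + 2 * η := cmt_exp1 hη0 hη1
      have b6 : ‖Zy y 1 (lin y t)‖ * Real.exp η ≤ ‖Zy y 1 (lin y t)‖ * (1 + 2 * η) :=
        mul_le_mul_of_nonneg_left b5 hZ.le
      linarith
  -- the lower bound for the logarithmic derivative in a direction
  have low : ∀ (t ϑ α : ℝ), α = ϑ + Real.pi → t ∈ Icc u (u + H) →
      D2 (zz H) α t ≤ η * Real.log (zz H) → ‖tl 1 y (zz H) (lin y t)‖ ≤ η →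
      (1 - δ) * L ≤ (Complex.exp (-((ϑ : ℂ) * Complex.I)) *
        (deriv riemannZeta (pt 1 t) / riemannZeta (pt 1 t))).re := by
    intro t ϑ α hα ht hd htl
    rw [hα] at hd
    have w1 := hW y (zz H) t ϑ η (η * Real.log (zz H)) hy2 hd htl
    obtain ⟨-, -, -, w2⟩ := key t ht
    have w3 := cmt_re ϑ (deriv riemannZeta (pt 1 t) / riemannZeta (pt 1 t) - Wy y 1 (lin y t))
    have w4 := (abs_le.1 (w3.trans w2)).1
    rw [mul_sub, Complex.sub_re] at w4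
    have w5 : η * Real.log (zz H) ≤ η * L := mul_le_mul_of_nonneg_left m6 hη0.le
    have w6 : δ * L = 100 * (η * L) := by rw [hδη]; ring
    have w7 : 0 ≤ η * L := by positivity
    nlinarith [w1, w4, w5, w6, w7, m8]
  refine ⟨fun t ht => ?_, ⟨t3, ht3, ?_, ?_⟩, ⟨t4, ht4, ?_⟩⟩
  · obtain ⟨k1, k2, k3, k4⟩ := key t ht
    obtain ⟨u1, u2⟩ := hU y (ZZ η H) (lin y t) η (q2 t ht).1 (q2 t ht).2
    refine ⟨k1, ?_, ?_⟩
    · have b1 : Real.exp (P1 (ZZ η H) + Ky y 1 + η) ≤ A * Real.exp (3 * η) := by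
        rw [← hA, ← Real.exp_add]
        exact Real.exp_le_exp.2 (by linarith)
      have b2 : Real.exp (3 * η) ≤ 1 + 4 * η := cmt_exp3 hη0 hη1
      have b5 : (1 + 2 * η) * ‖Zy y 1 (lin y t)‖ ≤ (1 + 2 * η) * (A * (1 + 4 * η)) :=
        mul_le_mul_of_nonneg_left
          ((u1.trans b1).trans (mul_le_mul_of_nonneg_left b2 hApos.le)) (by linarith)
      have b6 : (1 + 2 * η) * (A * (1 + 4 * η)) ≤ (1 + δ) * A := by
        have : (1 + 2 * η) * (1 + 4 * η) ≤ 1 + δ := cmt_b6 hδη hη0 hη1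
        calc (1 + 2 * η) * (A * (1 + 4 * η)) = ((1 + 2 * η) * (1 + 4 * η)) * A := by ring
          _ ≤ (1 + δ) * A := mul_le_mul_of_nonneg_right this hApos.le
      exact k3.trans (b5.trans b6)
    · have c1 : ‖deriv riemannZeta (pt 1 t) / riemannZeta (pt 1 t)‖ ≤
          ‖deriv riemannZeta (pt 1 t) / riemannZeta (pt 1 t) - Wy y 1 (lin y t)‖ +
            ‖Wy y 1 (lin y t)‖ := by
        have := norm_add_le (deriv riemannZeta (pt 1 t) / riemannZeta (pt 1 t) -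
          Wy y 1 (lin y t)) (Wy y 1 (lin y t))
        rwa [sub_add_cancel] at this
      have c2 : 0 ≤ η * L := by positivity
      have c3 : δ * L = 100 * (η * L) := by rw [hδη]; ring
      nlinarith [c1, c2, c3, k4, u2, m7]
  · obtain ⟨k1, k2, k3, k4⟩ := key t3 ht3
    have l1 := hL y (zz H) t3 η hz1 hy2 f1 f3
    have hzpos : (0:ℝ) < (zz H : ℝ) := by exact_mod_cast hz1
    have l2 : CL / Real.sqrt (zz H) ≤ η := by
      have s1 : CL / η ≤ Real.sqrt (zz H) := by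
        apply Real.le_sqrt_of_sq_le
        linarith
      have s2 : 0 < Real.sqrt (zz H : ℝ) := Real.sqrt_pos.2 hzpos
      rw [div_le_iff₀ s2]
      rw [div_le_iff₀ hη0] at s1
      linarith
    have l3 : A * Real.exp (-(19 * η)) ≤ ‖Zy y 1 (lin y t3)‖ := by
      refine le_trans ?_ l1
      rw [← hA, ← Real.exp_add]
      exact Real.exp_le_exp.2 (by linarith)
    have l4 : 1 - 19 * η ≤ Real.exp (-(19 * η)) := by
      have := Real.add_one_le_exp (-(19 * η))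
      linarith
    have l5 : A * (1 - 19 * η) ≤ ‖Zy y 1 (lin y t3)‖ :=
      (mul_le_mul_of_nonneg_left l4 hApos.le).trans l3
    have l6 : (1 - η) * (A * (1 - 19 * η)) ≤ (1 - η) * ‖Zy y 1 (lin y t3)‖ :=
      mul_le_mul_of_nonneg_left l5 (by linarith)
    have l7 : (1 - δ) * A ≤ (1 - η) * (A * (1 - 19 * η)) := by
      have : 1 - δ ≤ (1 - η) * (1 - 19 * η) := cmt_l7 hδη hη0
      calc (1 - δ) * A ≤ ((1 - η) * (1 - 19 * η)) * A :=
            mul_le_mul_of_nonneg_right this hApos.le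
        _ = (1 - η) * (A * (1 - 19 * η)) := by ring
    exact l7.trans (l6.trans k2)
  · have r1 := low t3 (-Real.pi) 0 (by ring) ht3 f2 f4
    exact r1.trans ((le_abs_self _).trans (cmt_re _ _))
  · exact low t4 θ (θ + Real.pi) rfl ht4 g2 g4

end Pool.Agent.Helper4.SJ
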